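import Pool.Agent.Helper77.SO.St

/-!
# Module TR of project SO (MP_7a9ddc_co): closed walks in forests
-/

set_option autoImplicit false

namespace Pool.Agent.Helper39.SO.TR

open Equiv Equiv.Perm Pool.Agent.Helper35.PM Pool.Agent.Helper77.HY Pool.Agent.Helper77.OF4
open Pool.Agent.Helper77.SO

theorem split {U : Type} {F : SimpleGraph U} {u v : U} (p : F.Walk u v) (e : Sym2 U)
    (he : e ∈ p.edges) : ∃ (x y : U) (q1 : F.Walk u x) (q2 : F.Walk y v), F.Adj x y ∧
      s(x, y) = e ∧ p.edges = q1.edges ++ s(x, y) :: q2.edges := by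
  induction p with
  | nil => simp at he
  | cons h p' ih =>
    rename_i a b c
    rw [SimpleGraph.Walk.edges_cons, List.mem_cons] at he
    rcases he with he | he
    · exact ⟨a, b, SimpleGraph.Walk.nil, p', h, he.symm, by simp⟩
    · obtain ⟨x, y, q1, q2, h1, h2, h3⟩ := ih he
      exact ⟨x, y, SimpleGraph.Walk.cons h q1, q2, h1, h2, by
        rw [SimpleGraph.Walk.edges_cons, SimpleGraph.Walk.edges_cons, h3]; rfl⟩

theorem two_le_count {U : Type} [DecidableEq U] {F : SimpleGraph U} (hF : F.IsAcyclic) {u : U}
    (p : F.Walk u u) (e : Sym2 U) (he : e ∈ p.edges) : 2 ≤ p.edges.count e := by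
  obtain ⟨x, y, q1, q2, h1, h2, h3⟩ := split p e he
  have hb : F.IsBridge s(x, y) := by
    have := SimpleGraph.isAcyclic_iff_forall_isBridge.1 hF
    exact this (by simpa using h1)
  have hm : s(x, y) ∈ (q2.append q1).edges := by
    have hw := SimpleGraph.isBridge_iff_forall_walk_mem_edges.1 hb
      (q2.append q1).reverse
    simpa [SimpleGraph.Walk.edges_reverse, or_comm] using hw
  rw [SimpleGraph.Walk.edges_append, List.mem_append] at hm
  rw [← h2, h3, List.count_append, List.count_cons_self]
  rcases hm with hm | hm
  · have := List.count_pos_iff.2 hm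
    omega
  · have := List.count_pos_iff.2 hm
    omega

theorem length_ge {U : Type} [DecidableEq U] {F : SimpleGraph U} (hF : F.IsAcyclic) {u : U}
    (p : F.Walk u u) : 2 * p.edges.toFinset.card ≤ p.length := by
  rw [← SimpleGraph.Walk.length_edges, ← List.sum_toFinset_count_eq_length, mul_comm,
    ← smul_eq_mul]
  refine Finset.card_nsmul_le_sum _ _ _ fun e he => ?_
  exact two_le_count hF p e (List.mem_toFinset.1 he)

theorem support_le {U : Type} [DecidableEq U] {F : SimpleGraph U} {u v : U} (p : F.Walk u v) :
    p.support.toFinset.card ≤ p.edges.toFinset.card + 1 := by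
  induction p with
  | nil => simp
  | cons h p' ih =>
    rename_i a b c
    rw [SimpleGraph.Walk.support_cons, SimpleGraph.Walk.edges_cons, List.toFinset_cons,
      List.toFinset_cons]
    by_cases ha : a ∈ p'.support
    · rw [Finset.insert_eq_of_mem (List.mem_toFinset.2 ha)]
      refine ih.trans ?_
      have := Finset.card_le_card (Finset.subset_insert s(a, b) p'.edges.toFinset)
      omega
    · have hne : s(a, b) ∉ p'.edges.toFinset := by
        intro hm
        exact ha (p'.fst_mem_support_of_mem_edges (List.mem_toFinset.1 hm))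
      rw [Finset.card_insert_of_notMem hne]
      have := Finset.card_insert_le a p'.support.toFinset
      omega

theorem main : StTr := by
  classical
  intro U F hF m v hm hvm hreach
  have hr : ∀ i ≤ m, F.Reachable (v 0) (v i) := by
    intro i hi
    rcases Nat.lt_or_ge i m with h | h
    · exact hreach i h
    · have : i = m := le_antisymm hi h
      rw [this, hvm]
  have key : ∀ j ≤ m, ∃ p : F.Walk (v 0) (v j),
      p.length = ∑ i ∈ Finset.range j, F.dist (v i) (v (i + 1)) ∧ ∀ i ≤ j, v i ∈ p.support := by
    intro j
    induction j with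
    | zero =>
      intro _
      refine ⟨SimpleGraph.Walk.nil, by simp, fun i hi => ?_⟩
      have : i = 0 := by omega
      subst this
      simp
    | succ j ih =>
      intro hj
      obtain ⟨p, hp1, hp2⟩ := ih (by omega)
      have h1 : F.Reachable (v j) (v (j + 1)) := (hr j (by omega)).symm.trans (hr (j + 1) hj)
      obtain ⟨q, hq⟩ := h1.exists_walk_length_eq_dist
      refine ⟨p.append q, ?_, fun i hi => ?_⟩
      · rw [SimpleGraph.Walk.length_append, hp1, hq, Finset.sum_range_succ]
      · rw [SimpleGraph.Walk.mem_support_append_iff]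
        rcases Nat.lt_or_ge j i with h | h
        · have : i = j + 1 := by omega
          subst this
          exact Or.inr q.end_mem_support
        · exact Or.inl (hp2 i h)
  obtain ⟨p, hp1, hp2⟩ := key m le_rfl
  have hp' : ∃ p : F.Walk (v 0) (v 0),
      p.length = ∑ i ∈ Finset.range m, F.dist (v i) (v (i + 1)) ∧ ∀ i ≤ m, v i ∈ p.support := by
    refine ⟨p.copy rfl hvm, by simpa using hp1, fun i hi => by simpa using hp2 i hi⟩
  obtain ⟨p, hp1, hp2⟩ := hp'
  have h1 : {x | ∃ i < m, v i = x}.ncard ≤ p.support.toFinset.card := by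
    rw [← Set.ncard_coe_finset]
    refine Set.ncard_le_ncard ?_ (Finset.finite_toSet _)
    rintro x ⟨i, hi, rfl⟩
    simpa using hp2 i hi.le
  have h2 := support_le p
  have h3 := length_ge hF p
  rw [← hp1]
  omega

end Pool.Agent.Helper39.SO.TR
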